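import Mathlib
import Pool.Agent.Lib.H52W.Legs

/-!
# MP_273810_co : the two sides of a side of a polygon (library H26D, helper26)
-/

set_option autoImplicit false

namespace Pool.Agent.Lib.H26D

open Complex Topology Filter Set
open Pool.Agent.Lib.H42I (IsPolygon)
open Pool.Agent.H52W

private theorem half_convex' (p a : ℂ) (σ : ℝ) : Convex ℝ {y : ℂ | 0 < σ * cdet a (y - p)} := by
  intro x hx y hy s t hs ht hst
  simp only [mem_ofPred_eq] at hx hy ⊢
  have e : cdet a (s • x + t • y - p) = s * cdet a (x - p) + t * cdet a (y - p) := by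
    simp only [cdet, Complex.real_smul, Complex.sub_re, Complex.sub_im, Complex.add_re,
      Complex.add_im, Complex.mul_re, Complex.mul_im, Complex.ofReal_re, Complex.ofReal_im]
    have : t = 1 - s := by linarith
    subst this
    ring
  rw [e]
  rcases eq_or_lt_of_le hs with h0 | h0
  · have h1 : t = 1 := by linarith
    rw [← h0, h1]
    linarith
  · rcases eq_or_lt_of_le ht with h2 | h2
    · have h1 : s = 1 := by linarith
      rw [← h2, h1]
      linarith
    · have h3 := mul_pos h0 hx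
      have h4 := mul_pos h2 hy
      nlinarith

private theorem cdet_lin (a w z p : ℂ) (s : ℝ) :
    cdet a (w + (s : ℂ) * (z - w) - p) = cdet a (w - p) + s * cdet a (z - w) := by
  simp only [cdet, Complex.sub_re, Complex.sub_im, Complex.add_re, Complex.add_im, Complex.mul_re,
    Complex.mul_im, Complex.ofReal_re, Complex.ofReal_im]
  ring

private theorem cdet_I (d : ℂ) (t : ℝ) (w p : ℂ) :
    cdet d (w + (t : ℂ) * (I * d) - p) = cdet d (w - p) + t * Complex.normSq d := by
  simp only [cdet, Complex.normSq_apply, Complex.sub_re, Complex.sub_im, Complex.add_re, Complex.add_im,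
    Complex.mul_re, Complex.mul_im, Complex.ofReal_re, Complex.ofReal_im, Complex.I_re, Complex.I_im]
  ring

/-- `P` lies on one and the same side of the whole (open) side `i`. -/
theorem same_side {n : ℕ} {P : Set ℂ} {v : ZMod n → ℂ} (h : IsPolygon P v) (i : ZMod n)
    (w₁ w₂ z₁ z₂ : ℂ) (hw₁ : w₁ ∈ openSegment ℝ (v i) (v (i + 1)))
    (hw₂ : w₂ ∈ openSegment ℝ (v i) (v (i + 1)))
    (h₁ : openSegment ℝ w₁ z₁ ⊆ interior P) (h₂ : openSegment ℝ w₂ z₂ ⊆ interior P) :
    0 < cdet (v (i + 1) - v i) (z₁ - w₁) * cdet (v (i + 1) - v i) (z₂ - w₂) := by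
  have := neZero_of_polygon h
  set d := v (i + 1) - v i with hd
  have hne := side_ne_of_polygon h i
  have hd0 : d ≠ 0 := sub_ne_zero.2 (Ne.symm hne)
  have hc₁ : cdet d (z₁ - w₁) ≠ 0 :=
    transversal_of_fly h i z₁ w₁ hw₁ (by rwa [openSegment_symm])
  have hc₂ : cdet d (z₂ - w₂) ≠ 0 :=
    transversal_of_fly h i z₂ w₂ hw₂ (by rwa [openSegment_symm])
  set C : Set ℂ := ⋃ j ∈ {j : ZMod n | j ≠ i}, segment ℝ (v j) (v (j + 1)) with hC
  have hCc : IsClosed C := by
    refine Set.Finite.isClosed_biUnion (Set.toFinite _) fun j _ => ?_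
    rw [segment_eq_image]
    exact (isCompact_Icc.image (by fun_prop)).isClosed
  have hKs : segment ℝ w₁ w₂ ⊆ openSegment ℝ (v i) (v (i + 1)) :=
    (convex_openSegment _ _).segment_subset hw₁ hw₂
  have hKc : IsCompact (segment ℝ w₁ w₂) := by
    rw [segment_eq_image]
    exact isCompact_Icc.image (by fun_prop)
  obtain ⟨ε, hε, hth⟩ := hKc.exists_thickening_subset_open hCc.isOpen_compl (by
    intro x hx hxC
    rw [hC, mem_iUnion₂] at hxC
    obtain ⟨j, hj, hxj⟩ := hxC
    exact not_mem_other_side h i j hj x (hKs hx) hxj)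
  have hconv : ∀ τ : ℝ, IsPreconnected
      (Metric.thickening ε (segment ℝ w₁ w₂) ∩ {y : ℂ | 0 < τ * cdet d (y - v i)}) := fun τ =>
    (((convex_segment w₁ w₂).thickening ε).inter (half_convex' (v i) d τ)).isPreconnected
  have hoff : ∀ τ : ℝ, ∀ y ∈ Metric.thickening ε (segment ℝ w₁ w₂) ∩
      {y : ℂ | 0 < τ * cdet d (y - v i)}, y ∉ curve v := by
    rintro τ y ⟨hy1, hy2⟩ hyc
    rw [curve, mem_iUnion] at hyc
    obtain ⟨j, hj⟩ := hyc
    by_cases hji : j = i
    · subst hji
      have := cdet_side_zero v j y hj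
      simp only [mem_ofPred_eq] at hy2
      rw [hd, this, mul_zero] at hy2
      exact lt_irrefl _ hy2
    · exact hth hy1 (by rw [hC]; exact mem_biUnion hji hj)
  have hz : ∀ w ∈ openSegment ℝ (v i) (v (i + 1)), cdet d (w - v i) = 0 := fun w hw =>
    cdet_side_zero v i w (openSegment_subset_segment _ _ _ hw)
  -- the half neighbourhoods are inside
  have key : ∀ w z : ℂ, w ∈ segment ℝ w₁ w₂ → openSegment ℝ w z ⊆ interior P → cdet d (z - w) ≠ 0 →
      Metric.thickening ε (segment ℝ w₁ w₂) ∩ {y : ℂ | 0 < cdet d (z - w) * cdet d (y - v i)} ⊆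
        interior P := by
    intro w z hw hwz hc
    have hlim : Tendsto (fun s : ℝ => w + (s : ℂ) * (z - w)) (𝓝[>] 0) (𝓝 w) := by
      have hcc : Continuous (fun s : ℝ => w + (s : ℂ) * (z - w)) := by fun_prop
      have := hcc.tendsto 0
      simp only [Complex.ofReal_zero, zero_mul, add_zero] at this
      exact this.mono_left nhdsWithin_le_nhds
    have h1 : ∀ᶠ s : ℝ in 𝓝[>] 0, w + (s : ℂ) * (z - w) ∈
        Metric.thickening ε (segment ℝ w₁ w₂) :=
      hlim.eventually (Metric.isOpen_thickening.mem_nhds (Metric.self_subset_thickening hε _ hw))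
    have h2 : ∀ᶠ s : ℝ in 𝓝[>] 0, 0 < s := self_mem_nhdsWithin
    have h3 : ∀ᶠ s : ℝ in 𝓝[>] 0, s < 1 :=
      (eventually_lt_nhds one_pos).filter_mono nhdsWithin_le_nhds
    obtain ⟨s, hs1, hs2, hs3⟩ := (h1.and (h2.and h3)).exists
    refine conn_interior h (hconv _) (hoff _) (x := w + (s : ℂ) * (z - w)) ⟨hs1, ?_⟩
      (hwz (param_mem_openSegment w z s hs2 hs3))
    simp only [mem_ofPred_eq]
    rw [cdet_lin, hz w (hKs hw), zero_add]
    have : 0 < cdet d (z - w) * cdet d (z - w) := mul_self_pos.2 hc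
    nlinarith
  by_contra hneg
  have hneg' : cdet d (z₁ - w₁) * cdet d (z₂ - w₂) < 0 :=
    lt_of_le_of_ne (not_lt.1 hneg) (mul_ne_zero hc₁ hc₂)
  have k₁ := key w₁ z₁ (left_mem_segment ℝ _ _) h₁ hc₁
  have k₂ := key w₂ z₂ (right_mem_segment ℝ _ _) h₂ hc₂
  have hflip := inside_flip_local v i w₁ (I * d) hw₁
    (fun j hj => not_mem_other_side h i j hj w₁ hw₁) (by
      have e : cdet (I * d) (v (i + 1) - v i) = - Complex.normSq d := by
        rw [← hd]
        simp only [cdet, Complex.normSq_apply, Complex.mul_re, Complex.mul_im, Complex.I_re,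
          Complex.I_im]
        ring
      rw [e]
      exact neg_ne_zero.2 (Complex.normSq_pos.2 hd0).ne')
  have hth1 : ∀ σ : ℝ, ∀ᶠ t : ℝ in 𝓝[>] 0, w₁ + ((σ * t : ℝ) : ℂ) * (I * d) ∈
      Metric.thickening ε (segment ℝ w₁ w₂) := by
    intro σ
    have hlim : Tendsto (fun t : ℝ => w₁ + ((σ * t : ℝ) : ℂ) * (I * d)) (𝓝[>] 0) (𝓝 w₁) := by
      have hcc : Continuous (fun t : ℝ => w₁ + ((σ * t : ℝ) : ℂ) * (I * d)) := by fun_prop
      have := hcc.tendsto 0
      simp only [mul_zero, Complex.ofReal_zero, zero_mul, add_zero] at this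
      exact this.mono_left nhdsWithin_le_nhds
    exact hlim.eventually (Metric.isOpen_thickening.mem_nhds
      (Metric.self_subset_thickening hε _ (left_mem_segment ℝ _ _)))
  have hpos : ∀ᶠ t : ℝ in 𝓝[>] 0, 0 < t := self_mem_nhdsWithin
  obtain ⟨t, ⟨_, _, hf⟩, hp, hm, ht⟩ := (hflip.and ((hth1 1).and ((hth1 (-1)).and hpos))).exists
  have hn : 0 < Complex.normSq d := Complex.normSq_pos.2 hd0
  have ein : ∀ σ : ℝ, (σ = 1 ∨ σ = -1) → w₁ + ((σ * t : ℝ) : ℂ) * (I * d) ∈
      Metric.thickening ε (segment ℝ w₁ w₂) → w₁ + ((σ * t : ℝ) : ℂ) * (I * d) ∈ interior P := by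
    intro σ hσ hmem
    have e := cdet_I d (σ * t) w₁ (v i)
    rw [hz w₁ hw₁, zero_add] at e
    have htn : 0 < t * Complex.normSq d := mul_pos ht hn
    rcases lt_or_gt_of_ne hc₁ with hlt | hgt
    · have hgt2 : 0 < cdet d (z₂ - w₂) := by
        by_contra hh
        have : cdet d (z₂ - w₂) < 0 := lt_of_le_of_ne (not_lt.1 hh) hc₂
        nlinarith
      rcases hσ with rfl | rfl
      · apply k₂
        refine ⟨hmem, ?_⟩
        simp only [mem_ofPred_eq]
        rw [e, one_mul]
        exact mul_pos hgt2 htn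
      · apply k₁
        refine ⟨hmem, ?_⟩
        simp only [mem_ofPred_eq]
        rw [e]
        nlinarith
    · have hlt2 : cdet d (z₂ - w₂) < 0 := by
        by_contra hh
        have : 0 < cdet d (z₂ - w₂) := lt_of_le_of_ne (not_lt.1 hh) (Ne.symm hc₂)
        nlinarith
      rcases hσ with rfl | rfl
      · apply k₁
        refine ⟨hmem, ?_⟩
        simp only [mem_ofPred_eq]
        rw [e, one_mul]
        exact mul_pos hgt htn
      · apply k₂
        refine ⟨hmem, ?_⟩
        simp only [mem_ofPred_eq]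
        rw [e]
        nlinarith
  have i1 := (mem_interior_iff_inside h _).1 (ein 1 (Or.inl rfl) hp)
  have i2 := (mem_interior_iff_inside h _).1 (ein (-1) (Or.inr rfl) hm)
  have e1 : w₁ + ((1 * t : ℝ) : ℂ) * (I * d) = w₁ + (t : ℂ) * (I * d) := by push_cast; ring
  have e2 : w₁ + ((-1 * t : ℝ) : ℂ) * (I * d) = w₁ - (t : ℂ) * (I * d) := by push_cast; ring
  rw [e1] at i1
  rw [e2] at i2
  exact (hf.1 i2) i1

end Pool.Agent.Lib.H26D
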