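import Mathlib
import Pool.Agent.Lib.H26D.Side

/-!
# MP_273810_co : chords of a billiard path from vertex to vertex (library H26D, helper26)

All statements are for a path `b, D, r, j`: `b (m+1) = b m + r m * D m` (`m ≤ K`), the legs are open
segments in the interior of `P`, `b m` is in the open side `j m` for `1 ≤ m ≤ K`.
-/

set_option autoImplicit false

namespace Pool.Agent.Lib.H26D

open Complex Topology Filter Set
open Pool.Agent.Lib.H42I (IsPolygon refl)
open Pool.Agent.H52W

/-- A billiard path from a vertex to a vertex without perpendicular hit. -/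
structure VPath {n : ℕ} (P : Set ℂ) (v : ZMod n → ℂ) (K : ℕ) (j : ℕ → ZMod n) (b D : ℕ → ℂ)
    (r : ℕ → ℝ) : Prop where
  pos : ∀ m ≤ K, 0 < r m
  step : ∀ m ≤ K, b (m + 1) = b m + (r m : ℂ) * D m
  fly : ∀ m ≤ K, openSegment ℝ (b m) (b (m + 1)) ⊆ interior P
  side : ∀ m, 1 ≤ m → m ≤ K → b m ∈ openSegment ℝ (v (j m)) (v (j m + 1))
  bounce : ∀ m, 1 ≤ m → m ≤ K → D m = refl (v (j m + 1) - v (j m)) (D (m - 1))
  nperp : ∀ m, 1 ≤ m → m ≤ K → D m ≠ - D (m - 1)
  start : ∃ a, b 0 = v a
  stop : ∃ a, b (K + 1) = v a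

theorem refl_refl (u d : ℂ) (hu : u ≠ 0) : refl u (refl u d) = d := by
  have hu' : (starRingEnd ℂ) u ≠ 0 := by simpa using hu
  unfold Pool.Agent.Lib.H42I.refl
  simp only [map_mul, map_div₀, Complex.conj_conj]
  field_simp

theorem refl_neg (u d : ℂ) : refl u (-d) = - refl u d := by
  unfold Pool.Agent.Lib.H42I.refl
  simp only [map_neg, mul_neg]

theorem cdet_real_mul (a d : ℂ) (t : ℝ) : cdet a ((t : ℂ) * d) = t * cdet a d := by
  simp only [cdet, Complex.mul_re, Complex.mul_im, Complex.ofReal_re, Complex.ofReal_im]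
  ring

/-- Two parallel chords with a common inner point, same starting direction: the same starting point. -/
theorem chord_start {S : Set ℂ} {p p' D : ℂ} {s s' r r' : ℝ} (hs : 0 < s) (hs' : 0 < s')
    (hsr : s < r) (hsr' : s' < r') (hp : p ∉ S) (hp' : p' ∉ S)
    (hf : openSegment ℝ p (p + (r : ℂ) * D) ⊆ S)
    (hf' : openSegment ℝ p' (p' + (r' : ℂ) * D) ⊆ S)
    (he : p + (s : ℂ) * D = p' + (s' : ℂ) * D) : p = p' := by
  have key : ∀ (p p' : ℂ) (s s' r' : ℝ), s < s' → 0 < s → s' < r' →
      openSegment ℝ p' (p' + (r' : ℂ) * D) ⊆ S → p + (s : ℂ) * D = p' + (s' : ℂ) * D → p ∈ S := by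
    intro p p' s s' r' h1 h2 h3 h4 h5
    apply h4
    have hr' : 0 < r' := by linarith
    have e : p = p' + (((s' - s) / r' : ℝ) : ℂ) * (p' + (r' : ℂ) * D - p') := by
      have hr0 : (r' : ℂ) ≠ 0 := by exact_mod_cast hr'.ne'
      have e1 : (((s' - s) / r' : ℝ) : ℂ) * (p' + (r' : ℂ) * D - p') = ((s' : ℂ) - s) * D := by
        push_cast
        field_simp
        ring
      rw [e1]
      linear_combination h5
    rw [e]
    refine param_mem_openSegment _ _ _ (div_pos (by linarith) hr') ?_
    rw [div_lt_one hr']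
    linarith
  rcases lt_trichotomy s s' with h | h | h
  · exact absurd (key p p' s s' r' h hs hsr' hf' he) hp
  · subst h
    exact add_right_cancel he
  · exact absurd (key p' p s' s r h hs' hsr hf he.symm) hp'

theorem chord_length {S : Set ℂ} {p D : ℂ} {r r' : ℝ} (hr : 0 < r) (hr' : 0 < r')
    (hq : p + (r : ℂ) * D ∉ S) (hq' : p + (r' : ℂ) * D ∉ S)
    (hf : openSegment ℝ p (p + (r : ℂ) * D) ⊆ S)
    (hf' : openSegment ℝ p (p + (r' : ℂ) * D) ⊆ S) : r = r' := by
  have key : ∀ r r' : ℝ, 0 < r → r < r' → openSegment ℝ p (p + (r' : ℂ) * D) ⊆ S →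
      p + (r : ℂ) * D ∈ S := by
    intro r r' h1 h2 h3
    apply h3
    have hr' : 0 < r' := by linarith
    have e : p + (r : ℂ) * D = p + ((r / r' : ℝ) : ℂ) * (p + (r' : ℂ) * D - p) := by
      have hr0 : (r' : ℂ) ≠ 0 := by exact_mod_cast hr'.ne'
      push_cast
      field_simp
      ring
    rw [e]
    exact param_mem_openSegment _ _ _ (div_pos h1 hr') (by rw [div_lt_one hr']; exact h2)
  rcases lt_trichotomy r r' with h | h | h
  · exact absurd (key r r' hr h hf') hq
  · exact h
  · exact absurd (key r' r hr' h hf) hq'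

theorem mem_open_param {p D z : ℂ} {r : ℝ} (hr : 0 < r)
    (hz : z ∈ openSegment ℝ p (p + (r : ℂ) * D)) : ∃ s : ℝ, 0 < s ∧ s < r ∧ z = p + (s : ℂ) * D := by
  rw [openSegment_eq_image] at hz
  obtain ⟨t, ⟨h0, h1⟩, rfl⟩ := hz
  refine ⟨t * r, mul_pos h0 hr, by nlinarith, ?_⟩
  show (1 - t) • p + t • (p + (r : ℂ) * D) = _
  simp only [Complex.real_smul]
  push_cast
  ring

namespace VPath

variable {n : ℕ} {P : Set ℂ} {v : ZMod n → ℂ} {K : ℕ} {j : ℕ → ZMod n} {b D : ℕ → ℂ} {r : ℕ → ℝ}

theorem not_interior_of_curve (h : IsPolygon P v) {x : ℂ} (hx : x ∈ curve v) : x ∉ interior P := by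
  intro hi
  have h1 : x ∈ frontier P := by rw [h.frontier_eq]; exact hx
  exact h1.2 hi

theorem bd (h : IsPolygon P v) (hp : VPath P v K j b D r) {m : ℕ} (hm : m ≤ K + 1) :
    b m ∉ interior P := by
  apply not_interior_of_curve h
  rcases Nat.eq_zero_or_pos m with h0 | h0
  · subst h0
    obtain ⟨a, ha⟩ := hp.start
    rw [ha, curve, mem_iUnion]
    exact ⟨a, left_mem_segment ℝ _ _⟩
  · rcases eq_or_lt_of_le hm with h1 | h1
    · subst h1
      obtain ⟨a, ha⟩ := hp.stop
      rw [ha, curve, mem_iUnion]
      exact ⟨a, left_mem_segment ℝ _ _⟩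
    · rw [curve, mem_iUnion]
      exact ⟨j m, openSegment_subset_segment _ _ _ (hp.side m h0 (by omega))⟩

theorem side_ne (h : IsPolygon P v) (i : ZMod n) : v (i + 1) - v i ≠ 0 :=
  sub_ne_zero.2 (Ne.symm (side_ne_of_polygon h i))

theorem fly' (hp : VPath P v K j b D r) {m : ℕ} (hm : m ≤ K) :
    openSegment ℝ (b m) (b m + (r m : ℂ) * D m) ⊆ interior P := by
  rw [← hp.step m hm]
  exact hp.fly m hm

/-- the reversed leg -/
theorem fly_rev (hp : VPath P v K j b D r) {m : ℕ} (hm : m ≤ K) :
    openSegment ℝ (b (m + 1)) (b (m + 1) + (r m : ℂ) * (- D m)) ⊆ interior P := by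
  have e : b (m + 1) + (r m : ℂ) * (- D m) = b m := by rw [hp.step m hm]; ring
  rw [e, openSegment_symm]
  exact hp.fly m hm

theorem rev_eq (hp : VPath P v K j b D r) {m : ℕ} (hm : m ≤ K) :
    b (m + 1) + (r m : ℂ) * (- D m) = b m := by rw [hp.step m hm]; ring

/-- The side of a bounce point is unique. -/
theorem side_unique (h : IsPolygon P v) {i i' : ZMod n} {w : ℂ}
    (h1 : w ∈ openSegment ℝ (v i) (v (i + 1))) (h2 : w ∈ openSegment ℝ (v i') (v (i' + 1))) :
    i = i' := by
  by_contra hne
  exact not_mem_other_side h i i' (Ne.symm hne) w h1 (openSegment_subset_segment _ _ _ h2)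

/-- departure directions at one side -/
theorem dep_dep (h : IsPolygon P v) (hp : VPath P v K j b D r) {m m' : ℕ} (hm : 1 ≤ m) (hmK : m ≤ K)
    (hm' : 1 ≤ m') (hmK' : m' ≤ K) (hj : j m = j m') :
    0 < cdet (v (j m + 1) - v (j m)) (D m) * cdet (v (j m + 1) - v (j m)) (D m') := by
  have h1 := same_side h (j m) (b m) (b m') (b (m + 1)) (b (m' + 1)) (hp.side m hm hmK)
    (by rw [hj]; exact hp.side m' hm' hmK') (hp.fly m hmK) (hp.fly m' hmK')
  rw [hp.step m hmK, hp.step m' hmK', add_sub_cancel_left, add_sub_cancel_left, cdet_real_mul,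
    cdet_real_mul] at h1
  have h2 := hp.pos m hmK
  have h3 := hp.pos m' hmK'
  have h4 : 0 < (r m * r m') * (cdet (v (j m + 1) - v (j m)) (D m) *
      cdet (v (j m + 1) - v (j m)) (D m')) := by nlinarith
  exact pos_of_mul_pos_right h4 (mul_pos h2 h3).le

/-- departure and arrival directions at one side -/
theorem dep_arr (h : IsPolygon P v) (hp : VPath P v K j b D r) {m m' : ℕ} (hm : 1 ≤ m) (hmK : m ≤ K)
    (hm' : 1 ≤ m') (hmK' : m' ≤ K) (hj : j m = j m') :
    cdet (v (j m + 1) - v (j m)) (D m) * cdet (v (j m + 1) - v (j m)) (D (m' - 1)) < 0 := by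
  obtain ⟨k, rfl⟩ : ∃ k, m' = k + 1 := ⟨m' - 1, by omega⟩
  rw [Nat.add_sub_cancel]
  have hk : k ≤ K := by omega
  have h0 := hp.fly_rev hk
  have h1 := same_side h (j m) (b m) (b (k + 1)) (b (m + 1)) (b (k + 1) + (r k : ℂ) * (- D k))
    (hp.side m hm hmK) (by rw [hj]; exact hp.side _ hm' hmK') (hp.fly m hmK) h0
  rw [hp.step m hmK, add_sub_cancel_left, add_sub_cancel_left, cdet_real_mul,
    cdet_real_mul] at h1
  have e : cdet (v (j m + 1) - v (j m)) (- D k) = - cdet (v (j m + 1) - v (j m)) (D k) := by
    simp only [cdet, Complex.neg_re, Complex.neg_im]; ring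
  rw [e] at h1
  have h2 := hp.pos m hmK
  have h3 := hp.pos k hk
  have h4 : 0 < (r m * r k) * (- (cdet (v (j m + 1) - v (j m)) (D m) *
      cdet (v (j m + 1) - v (j m)) (D k))) := by nlinarith
  have h5 := pos_of_mul_pos_right h4 (mul_pos h2 h3).le
  linarith

theorem dep_ne (h : IsPolygon P v) (hp : VPath P v K j b D r) {m m' : ℕ} (hm : 1 ≤ m) (hmK : m ≤ K)
    (hm' : 1 ≤ m') (hmK' : m' ≤ K) (hj : j m = j m') : D m ≠ - D m' := by
  intro he
  have h1 := dep_dep h hp hm hmK hm' hmK' hj
  have e : cdet (v (j m + 1) - v (j m)) (- D m') = - cdet (v (j m + 1) - v (j m)) (D m') := by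
    simp only [cdet, Complex.neg_re, Complex.neg_im]; ring
  rw [he, e] at h1
  nlinarith [mul_self_nonneg (cdet (v (j m + 1) - v (j m)) (D m'))]

theorem arr_ne (h : IsPolygon P v) (hp : VPath P v K j b D r) {m m' : ℕ} (hm : 1 ≤ m) (hmK : m ≤ K)
    (hm' : 1 ≤ m') (hmK' : m' ≤ K) (hj : j m = j m') : D m ≠ D (m' - 1) := by
  intro he
  have h1 := dep_arr h hp hm hmK hm' hmK' hj
  rw [he] at h1
  nlinarith [mul_self_nonneg (cdet (v (j m + 1) - v (j m)) (D (m' - 1)))]

theorem ne_zero (h : IsPolygon P v) (hp : VPath P v K j b D r) {m : ℕ} (hm : m ≤ K) : D m ≠ 0 := by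
  intro h0
  have h1 := hp.fly m hm
  rw [hp.step m hm, h0, mul_zero, add_zero, openSegment_same] at h1
  exact bd h hp (by omega) (h1 rfl)

theorem ne_succ (h : IsPolygon P v) (hp : VPath P v K j b D r) {m : ℕ} (hm : m ≤ K) :
    b m ≠ b (m + 1) := by
  intro he
  have h1 := hp.fly m hm
  rw [← he, openSegment_same] at h1
  exact bd h hp (by omega) (h1 rfl)

theorem bounce_unique_side (h : IsPolygon P v) (hp : VPath P v K j b D r) {m m' : ℕ} (hm : 1 ≤ m)
    (hmK : m ≤ K) (hm' : 1 ≤ m') (hmK' : m' ≤ K) (he : b m = b m') : j m = j m' := by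
  apply side_unique h (w := b m) (hp.side m hm hmK)
  rw [he]
  exact hp.side m' hm' hmK'

theorem not_vertex (h : IsPolygon P v) (hp : VPath P v K j b D r) {m : ℕ} (hm : 1 ≤ m)
    (hmK : m ≤ K) (a : ZMod n) : b m ≠ v a := fun he =>
  not_vertex_of_open h (j m) (b m) (hp.side m hm hmK) a he.symm

/-- No chord is traversed twice in the same direction. -/
theorem no_same (h : IsPolygon P v) (hp : VPath P v K j b D r) : ∀ m m' : ℕ, m < m' → m' ≤ K →
    D m = D m' → b m ≠ b m' := by
  intro m
  induction m with
  | zero =>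
    intro m' h1 h2 _ he
    obtain ⟨a, ha⟩ := hp.start
    exact not_vertex h hp (by omega) h2 a (he.symm.trans ha)
  | succ m ih =>
    intro m' h1 h2 hD he
    obtain ⟨k, rfl⟩ : ∃ k, m' = k + 1 := ⟨m' - 1, by omega⟩
    have hj := bounce_unique_side h hp (by omega : 1 ≤ m + 1) (by omega) (by omega : 1 ≤ k + 1) h2 he
    have b1 := hp.bounce (m + 1) (by omega) (by omega)
    have b2 := hp.bounce (k + 1) (by omega) h2
    rw [Nat.add_sub_cancel] at b1 b2
    have hD' : D m = D k := by
      have e := congrArg (Pool.Agent.Lib.H42I.refl (v (j (m + 1) + 1) - v (j (m + 1)))) (b1.symm.trans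
        (hD.trans b2))
      rw [← hj, refl_refl _ _ (side_ne h _), refl_refl _ _ (side_ne h _)] at e
      exact e
    apply ih k (by omega) (by omega) hD'
    -- both legs end in the same point
    have f1 := hp.fly_rev (by omega : m ≤ K)
    have f2 := hp.fly_rev (by omega : k ≤ K)
    have e1 := hp.rev_eq (by omega : m ≤ K)
    have e2 := hp.rev_eq (by omega : k ≤ K)
    have hr : r m = r k := by
      apply chord_length (S := interior P) (p := b (m + 1)) (D := - D m) (hp.pos m (by omega))
        (hp.pos k (by omega))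
      · rw [e1]; exact bd h hp (by omega)
      · rw [he, hD', e2]; exact bd h hp (by omega)
      · exact f1
      · rw [he, hD']; exact f2
    rw [← e1, ← e2, hr, he, hD']

/-- No chord is traversed in both directions. -/
theorem no_rev (h : IsPolygon P v) (hp : VPath P v K j b D r) : ∀ k m : ℕ, m + k ≤ K →
    D (m + k) = - D m → b (m + 1) ≠ b (m + k) := by
  intro k
  induction k using Nat.strong_induction_on with
  | _ k ih =>
    intro m hK hD he
    rcases Nat.lt_or_ge k 2 with hk | hk
    · interval_cases k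
      · rw [add_zero] at hD
        apply ne_zero h hp (by omega : m ≤ K)
        have h2 : D m + D m = 0 := by
          nth_rewrite 1 [hD]
          ring
        have h3 : (2 : ℂ) * D m = 0 := by rw [two_mul]; exact h2
        rcases mul_eq_zero.1 h3 with h4 | h4
        · norm_num at h4
        · exact h4
      · exact hp.nperp (m + 1) (by omega) hK (by rw [Nat.add_sub_cancel]; exact hD)
    · obtain ⟨l, rfl⟩ : ∃ l, k = l + 2 := ⟨k - 2, by omega⟩
      have hj := bounce_unique_side h hp (by omega : 1 ≤ m + 1) (by omega)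
        (by omega : 1 ≤ m + (l + 2)) hK he
      have b1 := hp.bounce (m + 1) (by omega) (by omega)
      have b2 := hp.bounce (m + (l + 2)) (by omega) hK
      rw [Nat.add_sub_cancel] at b1
      have i1 : m + (l + 2) - 1 = m + 1 + l := by omega
      rw [i1] at b2
      have hD' : D (m + 1 + l) = - D (m + 1) := by
        have e := congrArg (Pool.Agent.Lib.H42I.refl (v (j (m + 1) + 1) - v (j (m + 1)))) (b2.symm.trans hD)
        rw [← hj, refl_refl _ _ (side_ne h _), refl_neg, ← b1] at e
        exact e
      apply ih l (by omega) (m + 1) (by omega) hD'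
      -- the chord m+1 is the reversed chord m+1+l
      have i2 : m + (l + 2) = m + 1 + l + 1 := by omega
      have f2 := hp.fly_rev (by omega : m + 1 + l ≤ K)
      have e2 := hp.rev_eq (by omega : m + 1 + l ≤ K)
      rw [← i2] at f2 e2
      have hr : r (m + 1) = r (m + 1 + l) := by
        apply chord_length (S := interior P) (p := b (m + 1)) (D := D (m + 1))
          (hp.pos _ (by omega)) (hp.pos _ (by omega))
        · rw [← hp.step _ (by omega)]; exact bd h hp (by omega)
        · rw [he]
          rw [hD', neg_neg] at e2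
          rw [e2]; exact bd h hp (by omega)
        · exact hp.fly' (by omega)
        · rw [he]
          rw [hD', neg_neg] at f2
          exact f2
      rw [hp.step (m + 1) (by omega), ← e2, hr, he, hD', neg_neg]

/-- The open legs in one copy are disjoint. -/
theorem open_disj (h : IsPolygon P v) (hp : VPath P v K j b D r) {m m' : ℕ} (hmm : m < m')
    (hK : m' ≤ K) (hD : D m' = D m ∨ D m' = - D m) (z : ℂ)
    (h1 : z ∈ openSegment ℝ (b m) (b (m + 1))) (h2 : z ∈ openSegment ℝ (b m') (b (m' + 1))) :
    False := by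
  have hm : m ≤ K := by omega
  rw [hp.step m hm] at h1
  obtain ⟨s, hs0, hs1, hs⟩ := mem_open_param (hp.pos m hm) h1
  rcases hD with hD | hD
  · rw [hp.step m' hK] at h2
    obtain ⟨s', hs0', hs1', hs'⟩ := mem_open_param (hp.pos m' hK) h2
    refine no_same h hp m m' hmm hK hD.symm ?_
    refine chord_start (S := interior P) hs0 hs0' hs1 hs1' (bd h hp (by omega)) (bd h hp (by omega))
      (hp.fly' hm) ?_ (hs.symm.trans (by rw [hs', hD]))
    rw [← hD]
    exact hp.fly' hK
  · rw [openSegment_symm] at h2
    rw [← hp.rev_eq hK] at h2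
    obtain ⟨s', hs0', hs1', hs'⟩ := mem_open_param (hp.pos m' hK) h2
    have f2 := hp.fly_rev hK
    rw [hD, neg_neg] at hs' f2
    have e := chord_start (S := interior P) hs0 hs0' hs1 hs1' (bd h hp (by omega))
      (bd h hp (by omega)) (hp.fly' hm) f2 (hs.symm.trans hs')
    -- b m = b (m'+1); so the legs are the same chord
    have e2 := hp.rev_eq hK
    rw [hD, neg_neg] at e2
    have hr : r m = r m' := by
      apply chord_length (S := interior P) (p := b m) (D := D m) (hp.pos _ hm) (hp.pos _ hK)
      · rw [← hp.step _ hm]; exact bd h hp (by omega)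
      · rw [e, e2]; exact bd h hp (by omega)
      · exact hp.fly' hm
      · rw [e]; exact f2
    obtain ⟨k, rfl⟩ : ∃ k, m' = m + k := ⟨m' - m, by omega⟩
    refine no_rev h hp k m hK hD ?_
    rw [hp.step m hm, e, hr, e2]

/-- **The closed legs in one copy are disjoint**, except for the first and the last one, which may have
the common end vertex. -/
theorem chord_disj (h : IsPolygon P v) (hp : VPath P v K j b D r) {m m' : ℕ} (hmm : m < m')
    (hK : m' ≤ K) (hD : D m' = D m ∨ D m' = - D m) (z : ℂ)
    (h1 : z ∈ segment ℝ (b m) (b (m + 1))) (h2 : z ∈ segment ℝ (b m') (b (m' + 1))) :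
    m = 0 ∧ m' = K ∧ z = b 0 ∧ z = b (K + 1) := by
  have hm : m ≤ K := by omega
  have hop : ∀ l ≤ K, z ∈ segment ℝ (b l) (b (l + 1)) → z ∈ interior P →
      z ∈ openSegment ℝ (b l) (b (l + 1)) := by
    intro l hl hz hi
    rw [← insert_endpoints_openSegment] at hz
    rcases hz with rfl | rfl | hz
    · exact absurd hi (bd h hp (by omega))
    · exact absurd hi (bd h hp (by omega))
    · exact hz
  have hend : ∀ l ≤ K, z ∈ segment ℝ (b l) (b (l + 1)) → z ∉ interior P →
      z = b l ∨ z = b (l + 1) := by
    intro l hl hz hi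
    rw [← insert_endpoints_openSegment] at hz
    rcases hz with rfl | rfl | hz
    · exact Or.inl rfl
    · exact Or.inr rfl
    · exact absurd (hp.fly l hl hz) hi
  by_cases hi : z ∈ interior P
  · exact (open_disj h hp hmm hK hD z (hop m hm h1 hi) (hop m' hK h2 hi)).elim
  · have z1 := hend m hm h1 hi
    have z2 := hend m' hK h2 hi
    by_cases hb : ∃ l, 1 ≤ l ∧ l ≤ K ∧ z = b l
    · exfalso
      obtain ⟨l, hl1, hl2, hzl⟩ := hb
      have hside : z ∈ openSegment ℝ (v (j l)) (v (j l + 1)) := by
        rw [hzl]; exact hp.side l hl1 hl2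
      -- both legs start at z in the direction E or E'
      have hE : ∀ l ≤ K, (z = b l ∨ z = b (l + 1)) → ∃ σ : ℝ, (σ = 1 ∨ σ = -1) ∧
          openSegment ℝ z (z + (r l : ℂ) * ((σ : ℂ) * D l)) ⊆ interior P ∧
          openSegment ℝ z (z + (r l : ℂ) * ((σ : ℂ) * D l)) = openSegment ℝ (b l) (b (l + 1)) := by
        intro l hl hz
        rcases hz with hz | hz
        · refine ⟨1, Or.inl rfl, ?_, ?_⟩
          · rw [Complex.ofReal_one, one_mul, hz]
            exact hp.fly' hl
          · rw [Complex.ofReal_one, one_mul, hz, ← hp.step l hl]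
        · refine ⟨-1, Or.inr rfl, ?_, ?_⟩
          · rw [Complex.ofReal_neg, Complex.ofReal_one, neg_one_mul, hz]
            exact hp.fly_rev hl
          · rw [Complex.ofReal_neg, Complex.ofReal_one, neg_one_mul, hz, hp.rev_eq hl,
              openSegment_symm]
      obtain ⟨σ, hσ, f1, g1⟩ := hE m hm z1
      obtain ⟨σ', hσ', f2, g2⟩ := hE m' hK z2
      have hs := same_side h (j l) z z _ _ hside hside f1 f2
      rw [add_sub_cancel_left, add_sub_cancel_left, cdet_real_mul, cdet_real_mul, cdet_real_mul,
        cdet_real_mul] at hs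
      have hrr := mul_pos (hp.pos m hm) (hp.pos m' hK)
      set c := cdet (v (j l + 1) - v (j l)) (D m) with hc
      -- the two directions are equal
      have hdir : (σ' : ℂ) * D m' = (σ : ℂ) * D m := by
        rcases hD with hD | hD
        · rw [hD, ← hc] at hs
          have h3 : 0 < (r m * r m') * (σ * σ' * (c * c)) := by nlinarith
          have h4 := pos_of_mul_pos_right h3 hrr.le
          have h5 : σ' = σ := by
            rcases hσ with rfl | rfl <;> rcases hσ' with rfl | rfl
            · rfl
            · nlinarith [mul_self_nonneg c]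
            · nlinarith [mul_self_nonneg c]
            · rfl
          rw [h5, hD]
        · have e : cdet (v (j l + 1) - v (j l)) (- D m) = - c := by
            rw [hc]; simp only [cdet, Complex.neg_re, Complex.neg_im]; ring
          rw [hD, e] at hs
          have h3 : 0 < (r m * r m') * (- (σ * σ') * (c * c)) := by nlinarith
          have h4 := pos_of_mul_pos_right h3 hrr.le
          have h5 : σ' = - σ := by
            rcases hσ with rfl | rfl <;> rcases hσ' with rfl | rfl
            · nlinarith [mul_self_nonneg c]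
            · rfl
            · norm_num
            · nlinarith [mul_self_nonneg c]
          rw [h5, hD]
          push_cast
          ring
      rw [hdir] at f2 g2
      -- a common inner point
      set E := (σ : ℂ) * D m with hEdef
      set t := min (r m) (r m') / 2 with ht
      have ht0 : 0 < t := by
        rw [ht]
        exact div_pos (lt_min (hp.pos m hm) (hp.pos m' hK)) two_pos
      have ht1 : t < r m := by
        rw [ht]
        have := min_le_left (r m) (r m')
        have := hp.pos m hm
        linarith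
      have ht2 : t < r m' := by
        rw [ht]
        have := min_le_right (r m) (r m')
        have := hp.pos m' hK
        linarith
      have hmem : ∀ ρ : ℝ, t < ρ → z + (t : ℂ) * E ∈ openSegment ℝ z (z + (ρ : ℂ) * E) := by
        intro ρ hρ
        have hρ0 : 0 < ρ := by linarith
        have e : z + (t : ℂ) * E = z + ((t / ρ : ℝ) : ℂ) * (z + (ρ : ℂ) * E - z) := by
          have hρc : (ρ : ℂ) ≠ 0 := by exact_mod_cast hρ0.ne'
          have e1 : ((t / ρ : ℝ) : ℂ) * (z + (ρ : ℂ) * E - z) = (t : ℂ) * E := by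
            push_cast
            field_simp
            ring
          rw [e1]
        rw [e]
        exact param_mem_openSegment _ _ _ (div_pos ht0 hρ0) (by rw [div_lt_one hρ0]; exact hρ)
      exact open_disj h hp hmm hK hD (z + (t : ℂ) * E) (by rw [← g1]; exact hmem _ ht1)
        (by rw [← g2]; exact hmem _ ht2)
    · have a1 : z = b m := by
        rcases z1 with z1 | z1
        · exact z1
        · exact absurd ⟨m + 1, by omega, by omega, z1⟩ hb
      have a2 : m = 0 := by
        by_contra h0
        exact hb ⟨m, by omega, hm, a1⟩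
      have a3 : z = b (m' + 1) := by
        rcases z2 with z2 | z2
        · exact absurd ⟨m', by omega, hK, z2⟩ hb
        · exact z2
      have a4 : m' = K := by
        by_contra h0
        exact hb ⟨m' + 1, by omega, by omega, a3⟩
      subst a2 a4
      exact ⟨rfl, rfl, a1, a3⟩

/-- A path from a vertex to itself has a bounce on a side which does not contain the vertex. -/
theorem star_free (h : IsPolygon P v) (hp : VPath P v K j b D r) (a : ZMod n) (h0 : b 0 = v a)
    (h1 : b (K + 1) = v a) (hj : ∀ m, 1 ≤ m → m ≤ K → j m = a ∨ j m + 1 = a) : False := by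
  have key : ∀ m ≤ K + 1, 1 ≤ m →
      0 < ((starRingEnd ℂ) (D (m - 1)) * (b m - v a)).re := by
    intro m
    induction m with
    | zero => intro _ h2; omega
    | succ m ih =>
      intro hm _
      rw [Nat.add_sub_cancel]
      have hm' : m ≤ K := by omega
      have hn : 0 < Complex.normSq (D m) := Complex.normSq_pos.2 (ne_zero h hp hm')
      have hr := hp.pos m hm'
      have e : (starRingEnd ℂ) (D m) * (b (m + 1) - v a) =
          (starRingEnd ℂ) (D m) * (b m - v a) + ((r m * Complex.normSq (D m) : ℝ) : ℂ) := by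
        rw [hp.step m hm']
        have : (starRingEnd ℂ) (D m) * D m = (Complex.normSq (D m) : ℂ) := by
          rw [mul_comm, Complex.mul_conj]
        push_cast
        linear_combination (r m : ℂ) * this
      rw [e, Complex.add_re, Complex.ofReal_re]
      rcases Nat.eq_zero_or_pos m with hm0 | hm0
      · subst hm0
        rw [h0, sub_self, mul_zero, Complex.zero_re, zero_add]
        exact mul_pos hr hn
      · have i1 := ih (by omega) hm0
        -- the bounce at b m does not change the scalar product
        have hb := hp.bounce m hm0 hm'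
        set d := v (j m + 1) - v (j m) with hd
        have hd0 : d ≠ 0 := side_ne h _
        obtain ⟨s, hs⟩ : ∃ s : ℝ, b m - v a = (s : ℂ) * d := by
          have hs := hp.side m hm0 hm'
          obtain ⟨s, _, _, hs⟩ := mem_segment_param (openSegment_subset_segment _ _ _ hs)
          rcases hj m hm0 hm' with hja | hja
          · refine ⟨s, ?_⟩
            rw [hs, hja, add_sub_cancel_left, hd, hja]
          · refine ⟨s - 1, ?_⟩
            rw [hs, ← hja, hd]
            push_cast
            ring
        have hdc : (starRingEnd ℂ) d ≠ 0 := by simpa using hd0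
        have e2 : (starRingEnd ℂ) (D m) * (b m - v a) =
            (starRingEnd ℂ) ((starRingEnd ℂ) (D (m - 1)) * (b m - v a)) := by
          rw [hb, hs]
          unfold Pool.Agent.Lib.H42I.refl
          simp only [map_mul, map_div₀, Complex.conj_conj, Complex.conj_ofReal]
          field_simp
        rw [e2, Complex.conj_re]
        have := mul_pos hr hn
        linarith
  have h2 := key (K + 1) le_rfl (by omega)
  rw [h1, sub_self, mul_zero, Complex.zero_re] at h2
  exact lt_irrefl _ h2

end VPath

end Pool.Agent.Lib.H26D
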